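import Pool.Agent.helper29.NS.SpecD

/-!
# Module ns:LE
-/

namespace NS

open MeasureTheory Filter Topology Set

/-- Squared distance to the origin in the rotated frame. -/
theorem LE_norm (θ : ℝ) (c : ℝ × ℝ) (s r : ℝ) :
    (pt θ c s r).1 ^ 2 + (pt θ c s r).2 ^ 2 = c.1 ^ 2 + c.2 ^ 2 + s ^ 2 + r ^ 2 +
      2 * s * (c.1 * Real.cos θ + c.2 * Real.sin θ) -
        2 * r * (c.1 * Real.sin θ - c.2 * Real.cos θ) := by
  simp only [pt]
  linear_combination (s ^ 2 + r ^ 2) * Real.sin_sq_add_cos_sq θ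

/-- Coordinates in the rotated frame. -/
theorem LE_coord (θ : ℝ) (c p : ℝ × ℝ) : ∃ s r : ℝ, p = pt θ c s r ∧
    s ^ 2 + r ^ 2 = (p.1 - c.1) ^ 2 + (p.2 - c.2) ^ 2 := by
  refine ⟨(p.1 - c.1) * Real.cos θ + (p.2 - c.2) * Real.sin θ,
    -((p.1 - c.1) * Real.sin θ) + (p.2 - c.2) * Real.cos θ, ?_, ?_⟩
  · refine Prod.ext ?_ ?_
    · simp only [pt]
      linear_combination -(p.1 - c.1) * Real.sin_sq_add_cos_sq θ
    · simp only [pt]
      linear_combination -(p.2 - c.2) * Real.sin_sq_add_cos_sq θ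
  · linear_combination ((p.1 - c.1) ^ 2 + (p.2 - c.2) ^ 2) * Real.sin_sq_add_cos_sq θ

/-- LE. -/
theorem LE : LE_stmt := by
  intro Ω R c θ δ f hR hc hch hK ⟨η, hη, hf⟩
  have hc' : c.1 ^ 2 + c.2 ^ 2 = R ^ 2 := hc
  set K := c.1 * Real.sin θ - c.2 * Real.cos θ with hKdef
  have hcont : ContinuousAt f 0 := hch.smooth.continuous.continuousAt
  obtain ⟨ζ, hζ, hζf⟩ := Metric.continuousAt_iff.1 hcont (min K δ) (lt_min hK hch.pos)
  refine ⟨min (min δ η) (min K ζ), lt_min (lt_min hch.pos hη) (lt_min hK hζ), ?_⟩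
  intro p hp
  obtain ⟨s, r, rfl, hsr⟩ := LE_coord θ c p
  set ε := min (min δ η) (min K ζ) with hε
  have hε0 : 0 < ε := lt_min (lt_min hch.pos hη) (lt_min hK hζ)
  have hp' : s ^ 2 + r ^ 2 < ε ^ 2 := by
    rw [hsr]
    exact hp
  have hs : |s| < ε := abs_lt_of_sq_lt_sq (by nlinarith [sq_nonneg r]) hε0.le
  have hr : |r| < ε := abs_lt_of_sq_lt_sq (by nlinarith [sq_nonneg s]) hε0.le
  have e1 : ε ≤ δ := (min_le_left _ _).trans (min_le_left _ _)
  have e2 : ε ≤ η := (min_le_left _ _).trans (min_le_right _ _)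
  have e3 : ε ≤ K := (min_le_right _ _).trans (min_le_left _ _)
  have e4 : ε ≤ ζ := (min_le_right _ _).trans (min_le_right _ _)
  have hg := hch.graph s r (by linarith) (by linarith)
  have hfs := hf s (by linarith)
  rw [LE_norm] at hfs
  have hfz : |f s| < min K δ := by
    have h := hζf (x := s) (by rw [Real.dist_eq, sub_zero]; linarith)
    rwa [hch.f0, Real.dist_eq, sub_zero] at h
  have hfK : |f s| < K := lt_of_lt_of_le hfz (min_le_left _ _)
  have hrK : |r| < K := by linarith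
  have h1 := abs_lt.1 hfK
  have h2 := abs_lt.1 hrK
  rw [hg, LE_norm, ← hKdef]
  rw [← hKdef] at hfs
  have key : c.1 ^ 2 + c.2 ^ 2 + s ^ 2 + r ^ 2 +
      2 * s * (c.1 * Real.cos θ + c.2 * Real.sin θ) - 2 * r * K - R ^ 2 =
        (f s - r) * (2 * K - f s - r) := by
    linear_combination hfs + hc'
  have hpos : 0 < 2 * K - f s - r := by linarith
  constructor
  · intro h
    have : (f s - r) * (2 * K - f s - r) < 0 := mul_neg_of_neg_of_pos (by linarith) hpos
    linarith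
  · intro h
    by_contra h'
    push Not at h'
    have : 0 ≤ (f s - r) * (2 * K - f s - r) := mul_nonneg (by linarith) hpos.le
    linarith

end NS
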